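import Pool.Agent.Q43.GR.Core

/-!
# The Frobenius pushforwards of the twisted tautological sequence on `Gr(2,n)` split

Question Q1 of MP_da5d07_ag asks whether, for every `e ≥ 1`, the Frobenius pushforward
`(∗_e)  0 → F^e_*(R ⊗ L) → F^e_*(V ⊗ L) → F^e_*(Q ⊗ L) → 0`, `L = O(-2)`, of the twisted
tautological sequence on `X = Gr(2,n)` is non-split.  We show that, on the contrary, it splits for
every `e ≥ 1` as soon as the characteristic `p` does not divide `n - 4`.

The retraction is an explicit differential operator of order one.  Sections of `V ⊗ L` are vectors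
`v` of functions of an `n × 2` matrix `x` of rank two (whose columns span the point of `X`) with
`v(x g) = det(g)^{-2} v(x)`; the operator is `v ↦ (n - 4)⁻¹ x div(v)`, where
`div(v)_j = ∑ i, ∂ v_i / ∂ x_{ij}`.  It is linear over all `p`-th powers of functions.

## The description of the sheaves

Let `x` be the generic `n × 2` matrix, with entries in the field `Rat k n` of rational functions in
its `2 n` entries.  The Grassmannian `X` is covered by the standard affine charts `U_I`, where `I`
is a pair of rows and `U_I` is given by `minor I = det x_I ≠ 0`; the ring `O(U_I)` is the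
polynomial ring generated by the entries of `y I = x x_I⁻¹` (`Chart.coordRing`), and the field of
functions `K(X)` is generated by all these entries (`functionField`).  The sheaves `V ⊗ O(-2)` and
`R ⊗ O(-2)` are subsheaves of the constant sheaf `(Rat k n)^n`: `O(-2)` is generated over `U_I` by
`(minor I)^{-2}`, and `R ⊆ V ⊗ O_X` is generated over `U_I` by the two columns of `y I`
(`Chart.sectionsVL`, `Chart.sectionsRL`).

As `X` is integral and the sheaves are quasi-coherent and torsion free, a morphism of
`O_X`-modules `r : F^e_*(V ⊗ L) → F^e_*(R ⊗ L)` is an additive map between the generic stalks,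
such that `r (f^{p^e} v) = f^{p^e} r(v)` for `f ∈ K(X)`, which maps the sections of `V ⊗ L` over
`U_I` to sections of `R ⊗ L` over `U_I` for each `I`; it splits `(∗_e)` if it is the identity on
`R ⊗ L` (`FrobeniusSplitting`).
-/

set_option autoImplicit false

namespace Pool.Agent.Results.MP_da5d07_ag.SplitFrobeniusPushforward

universe u

/-- The field of rational functions over `k` in the entries of an `n × 2` matrix. -/
abbrev Rat (k : Type u) [Field k] (n : ℕ) : Type u :=
  FractionRing (MvPolynomial (Fin n × Fin 2) k)

/-- The generic `n × 2` matrix; its columns are a basis of the generic plane. -/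
noncomputable def generic (k : Type u) [Field k] (n : ℕ) : Matrix (Fin n) (Fin 2) (Rat k n) :=
  fun i j => algebraMap (MvPolynomial (Fin n × Fin 2) k) (Rat k n) (MvPolynomial.X (i, j))

/-- A standard affine chart `U_I` of `Gr(2,n)`: two rows `I 0 < I 1`. -/
structure Chart (n : ℕ) where
  /-- the two rows -/
  row : Fin 2 → Fin n
  /-- they are in increasing order -/
  strictMono : StrictMono row

namespace Chart

variable (k : Type u) [Field k] {n : ℕ} (I : Chart n)

/-- The `2 × 2` submatrix `x_I` of the generic matrix. -/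
noncomputable def square : Matrix (Fin 2) (Fin 2) (Rat k n) :=
  (generic k n).submatrix I.row id

/-- The Plücker coordinate `det x_I`, a generator of `O_X(1)` over `U_I`. -/
noncomputable def minor : Rat k n := (I.square k).det

/-- The matrix `y = x x_I⁻¹`, whose entries are the coordinates on `U_I`, and whose columns are a
basis of the tautological subbundle `R` over `U_I`. -/
noncomputable def y : Matrix (Fin n) (Fin 2) (Rat k n) := generic k n * (I.square k)⁻¹

/-- The ring `O(U_I)`. -/
noncomputable def coordRing : Subalgebra k (Rat k n) :=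
  Algebra.adjoin k (Set.range fun ab : Fin n × Fin 2 => I.y k ab.1 ab.2)

/-- The sections of `V ⊗ L`, `L = O_X(-2)`, over `U_I`. -/
def sectionsVL : Set (Fin n → Rat k n) :=
  {v | ∃ h : Fin n → Rat k n, (∀ i, h i ∈ I.coordRing k) ∧
    v = fun i => (I.minor k ^ 2)⁻¹ * h i}

/-- The sections of `R ⊗ L`, `L = O_X(-2)`, over `U_I`. -/
def sectionsRL : Set (Fin n → Rat k n) :=
  {v | ∃ a : Fin 2 → Rat k n, (∀ c, a c ∈ I.coordRing k) ∧
    v = fun i => (I.minor k ^ 2)⁻¹ * ∑ c, I.y k i c * a c}

end Chart

/-- The field of rational functions `K(X)` of the Grassmannian. -/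
noncomputable def functionField (k : Type u) [Field k] (n : ℕ) : IntermediateField k (Rat k n) :=
  IntermediateField.adjoin k {f | ∃ (I : Chart n) (a : Fin n) (b : Fin 2), f = I.y k a b}

/-- A splitting of the sequence `(∗_e)`: a retraction `r` of `F^e_*(R ⊗ L) → F^e_*(V ⊗ L)`. -/
structure FrobeniusSplitting (p e : ℕ) (k : Type u) [Field k] (n : ℕ) where
  /-- the retraction -/
  r : (Fin n → Rat k n) →+ (Fin n → Rat k n)
  /-- it is `O_X`-linear for the module structures of the `e`-th Frobenius pushforwards -/
  semilinear : ∀ f ∈ functionField k n, ∀ v, r (f ^ p ^ e • v) = f ^ p ^ e • r v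
  /-- it maps sections of `V ⊗ L` to sections of `R ⊗ L` -/
  maps : ∀ (I : Chart n), ∀ v ∈ I.sectionsVL k, r v ∈ I.sectionsRL k
  /-- it is the identity on `R ⊗ L` -/
  retraction : ∀ (I : Chart n), ∀ v ∈ I.sectionsRL k, r v = v

/-- **The sequence `(∗_e)` splits for every `e ≥ 1` if `p` does not divide `n - 4`.**  Here `k` is
any field of characteristic `p` (the case `p = 2` is included) and `n ≥ 5`. -/
theorem result (p : ℕ) [Fact p.Prime] (k : Type u) [Field k] [CharP k p] (n : ℕ)
    (hn : 5 ≤ n) (hpn : ¬ p ∣ n - 4) (e : ℕ) (he : 1 ≤ e) :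
    Nonempty (FrobeniusSplitting p e k n) := by
  have hp' : p.Prime := Fact.out
  have hd : ∀ (i : Fin n) (j : Fin 2), ∃ E' : Derivation k (Rat k n) (Rat k n),
      ∀ b, E' (algebraMap (MvPolynomial (Fin n × Fin 2) k) (Rat k n) b) =
        algebraMap (MvPolynomial (Fin n × Fin 2) k) (Rat k n) (MvPolynomial.pderiv (i, j) b) :=
    fun i j => Q43.GR.exists_der_frac (MvPolynomial.pderiv (i, j))
  choose d hd using hd
  let W : Q43.GR.Data k (Rat k n) n :=
    { x := generic k n
      d := d
      hd := by
        intro i j a b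
        rw [generic, hd, MvPolynomial.pderiv_X]
        by_cases h : a = i ∧ b = j
        · rw [if_pos h]
          obtain ⟨rfl, rfl⟩ := h
          simp
        · rw [if_neg h, Pi.single_apply, if_neg, map_zero]
          intro h'
          apply h
          rw [Prod.mk.injEq] at h'
          exact ⟨h'.1, h'.2⟩ }
  have hdet : ∀ I : Chart n, (W.xI I.row).det ≠ 0 := by
    intro I h0
    have h01 : I.row 0 ≠ I.row 1 := fun h => by
      simpa using I.strictMono.injective h
    have h1 : algebraMap (MvPolynomial (Fin n × Fin 2) k) (Rat k n)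
        (MvPolynomial.X (I.row 0, 0) * MvPolynomial.X (I.row 1, 1) -
          MvPolynomial.X (I.row 0, 1) * MvPolynomial.X (I.row 1, 0)) = 0 := by
      rw [Matrix.det_fin_two] at h0
      rw [map_sub, map_mul, map_mul]
      exact h0
    have h2 := (map_eq_zero_iff _ (IsFractionRing.injective
      (MvPolynomial (Fin n × Fin 2) k) (Rat k n))).1 h1
    have h3 := congrArg (MvPolynomial.eval (fun ij : Fin n × Fin 2 =>
      if ij = (I.row 0, 0) ∨ ij = (I.row 1, 1) then (1 : k) else 0)) h2
    simp [h01, Ne.symm h01] at h3
  have hKp : CharP (Rat k n) p := inferInstance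
  have hn4 : ((n : Rat k n) - 4) ≠ 0 := by
    intro h
    apply hpn
    rw [← CharP.cast_eq_zero_iff (Rat k n) p, Nat.cast_sub (by omega)]
    exact_mod_cast h
  have hinj : ∀ I : Chart n, Function.Injective I.row := fun I => I.strictMono.injective
  have hdadd : ∀ v w : Fin n → Rat k n, W.op (v + w) = W.op v + W.op w := by
    intro v w
    funext a
    simp only [Q43.GR.Data.op, Q43.GR.Data.div, Pi.add_apply, map_add, Finset.sum_add_distrib,
      mul_add]
  have hdsmul : ∀ (f : Rat k n) (v : Fin n → Rat k n),
      W.op (f ^ p ^ e • v) = f ^ p ^ e • W.op v := by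
    intro f v
    funext a
    simp only [Q43.GR.Data.op, Q43.GR.Data.div, Pi.smul_apply, smul_eq_mul]
    rw [Finset.mul_sum]
    refine Finset.sum_congr rfl fun j _ => ?_
    rw [mul_left_comm]
    congr 1
    rw [Finset.mul_sum]
    refine Finset.sum_congr rfl fun i _ => ?_
    rw [Derivation.leibniz, Derivation.leibniz_pow]
    have h0 : ((p ^ e : ℕ) : Rat k n) = 0 := by
      rw [CharP.cast_eq_zero_iff (Rat k n) p]
      exact dvd_pow_self p (by omega)
    rw [← Nat.cast_smul_eq_nsmul (Rat k n), h0, zero_smul, smul_zero, add_zero, smul_eq_mul]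
  refine ⟨{
    r := { toFun := fun v => ((n : Rat k n) - 4)⁻¹ • W.op v
           map_zero' := by
             have := hdadd 0 0
             rw [add_zero] at this
             have h0 : W.op 0 = 0 := by simpa using this
             rw [h0, smul_zero]
           map_add' := fun v w => by rw [hdadd, smul_add] }
    semilinear := ?_
    maps := ?_
    retraction := ?_ }⟩
  · intro f _ v
    change ((n : Rat k n) - 4)⁻¹ • W.op (f ^ p ^ e • v) = f ^ p ^ e • ((n : Rat k n) - 4)⁻¹ • W.op v
    rw [hdsmul, smul_comm]
  · rintro I v ⟨h, hh, rfl⟩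
    obtain ⟨a', ha', h1⟩ := W.op_mem I.row (hdet I) (hinj I) h hh
    refine ⟨fun c => ((n : Rat k n) - 4)⁻¹ * a' c, fun c => ?_, ?_⟩
    · refine Subalgebra.mul_mem _ ?_ (ha' c)
      have : ((n : Rat k n) - 4)⁻¹ = algebraMap k (Rat k n) (((n : k) - 4)⁻¹) := by
        rw [map_inv₀, map_sub, map_natCast, map_ofNat]
      rw [this]
      exact Subalgebra.algebraMap_mem _ _
    · funext a
      change ((n : Rat k n) - 4)⁻¹ * W.op (fun i => ((W.xI I.row).det ^ 2)⁻¹ * h i) a = _
      rw [h1]
      change _ = ((W.xI I.row).det ^ 2)⁻¹ * ∑ c, W.y I.row a c * (((n : Rat k n) - 4)⁻¹ * a' c)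
      rw [Finset.mul_sum, Finset.mul_sum, Finset.mul_sum]
      exact Finset.sum_congr rfl fun c _ => by ring
  · rintro I v ⟨a', ha', rfl⟩
    funext a
    change ((n : Rat k n) - 4)⁻¹ * W.op (fun i => ((W.xI I.row).det ^ 2)⁻¹ *
      ∑ c, W.y I.row i c * a' c) a = ((W.xI I.row).det ^ 2)⁻¹ * ∑ c, W.y I.row a c * a' c
    rw [W.op_R I.row (hdet I) (hinj I) a' ha', ← mul_assoc, inv_mul_cancel₀ hn4, one_mul]

end Pool.Agent.Results.MP_da5d07_ag.SplitFrobeniusPushforward
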